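import Pool.Agent.NH93.QT.CompFin

/-!
# MP_10e784_ag: rational points on almost all quadratic twists of `y² = P(h(x))`, `deg h` even

Let `h ∈ ℤ[x]` be of even degree and `P = ∏ k, P k`, `P k ∈ ℤ[u]` irreducible over `ℚ`, pairwise
non-associated.  Let `L` be a set of indices `k` of linear factors `P k`, with zeros `ρ k`, which
contains all linear factors with `P k (h(x))` reducible.  Suppose that for different `i, k ∈ L` there
is an `l ≠ i, k` such that `P l (ρ i) P l (ρ k)` is not a square (no condition, if `L` has at most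
one element).  Then for all squarefree `d`, `|d| ≤ X`, with at most `C X (log X)^(-δ)` exceptions,
every rational point with `y ≠ 0` of the twist `d y² = P(h(x))` is of constant type: for some
`i ∈ L` all `P k (h(x)) P k (ρ i)`, `k ≠ i`, are squares.  So all these points lie above finitely
many `x` that do not depend on `d`, if the curves `z_k² = P k (ρ i) P k (h(x))`, `i ∈ L`, have only
finitely many rational points, and then almost all twists have no rational point with `y ≠ 0`.

This includes all hyperelliptic curves with an even polynomial, `y² = P(x²)`.  The starting files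
treat products with at least four factors of odd degree and a condition which fails for the even
polynomials with a linear factor.
-/

set_option autoImplicit false

namespace Pool.Agent.Results.MP_10e784_ag.CompositeTwists

open Finset Polynomial

/-- the homogenisation `F(x, w) = ∑ i, a i * x ^ i * w ^ (n - i)` of `f = ∑ i, a i * x ^ i`,
`n = deg f` -/
noncomputable def hom (f : ℤ[X]) {R : Type*} [CommRing R] (x w : R) : R :=
  ∑ i ∈ range (f.natDegree + 1), (f.coeff i : R) * x ^ i * w ^ (f.natDegree - i)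

section K

variable {K : Type} [Fintype K]

/-- the value of `P k (h(x))` at the point `(x : w)`, that is, of its homogenisation
`w ^ (deg h * deg P k) * P k (h(x / w))` -/
noncomputable def F (h : ℤ[X]) (P : K → ℤ[X]) (k : K) (x w : ℚ) : ℚ :=
  hom (P k) (hom h x w) (w ^ h.natDegree)

/-- the zero of a linear polynomial -/
noncomputable def root (f : ℤ[X]) : ℚ := -(f.coeff 0 : ℚ) / (f.coeff 1 : ℚ)

/-- `(x : w : y)` is a rational point with `y ≠ 0` of the curve `d y² = ∏ k, P k (h(x))` -/
def Point (h : ℤ[X]) (P : K → ℤ[X]) (d : ℤ) (x w y : ℚ) : Prop :=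
  y ≠ 0 ∧ (d : ℚ) * y ^ 2 = ∏ k, F h P k x w

/-- `(x : w)` is of constant type: for some `i ∈ L` the values of all `P k (h)`, `k ≠ i`, at
`(x : w)` are in the square classes of the values of `P k` at the zero of `P i` -/
def Const (h : ℤ[X]) (P : K → ℤ[X]) (L : Finset K) (x w : ℚ) : Prop :=
  ∃ i ∈ L, ∀ k, k ≠ i → IsSquare (F h P k x w * aeval (root (P i)) (P k))

/-- the hypotheses -/
structure Factors (h : ℤ[X]) (P : K → ℤ[X]) (L : Finset K) : Prop where
  even : Even h.natDegree
  pos : 0 < h.natDegree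
  irreducible : ∀ k, Irreducible ((P k).map (Int.castRingHom ℚ))
  different : ∀ k l, k ≠ l →
    ¬ Associated ((P k).map (Int.castRingHom ℚ)) ((P l).map (Int.castRingHom ℚ))
  linear : ∀ i ∈ L, (P i).natDegree = 1
  other : ∀ i, i ∉ L → 2 ≤ (P i).natDegree ∨
    Irreducible (((P i).comp h).map (Int.castRingHom ℚ))
  pair : ∀ i ∈ L, ∀ k ∈ L, i ≠ k → ∃ l, l ≠ i ∧ l ≠ k ∧
    ¬ IsSquare (aeval (root (P i)) (P l) * aeval (root (P k)) (P l))

end K

/-- (1) For almost all squarefree `d` all points of `d y² = P(h(x))` with `y ≠ 0` are of constant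
type.  (2) If only finitely many `t` are of constant type, then almost all of these curves have no
rational point with `y ≠ 0`.  (3) For almost all squarefree `d` none of the curves `d y² = x^n - 1`,
`6 ∣ n` or `8 ∣ n`, has a rational point with `y ≠ 0`. -/
theorem result :
    (∀ (K : Type) [Fintype K] [Nonempty K] (h : ℤ[X]) (P : K → ℤ[X]) (L : Finset K),
      Factors h P L →
      (∃ δ : ℝ, 0 < δ ∧ ∃ C : ℝ, ∀ X : ℕ, 3 ≤ X →
        ({d : ℤ | d.natAbs ≤ X ∧ Squarefree d ∧
          ∃ x w y : ℚ, Point h P d x w y ∧ ¬ Const h P L x w}.ncard : ℝ) ≤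
            C * X * (Real.log X) ^ (-δ)) ∧
      ({t : ℚ | (∀ k, F h P k t 1 ≠ 0) ∧ Const h P L t 1}.Finite →
        ∃ δ : ℝ, 0 < δ ∧ ∃ C : ℝ, ∀ X : ℕ, 3 ≤ X →
          ({d : ℤ | d.natAbs ≤ X ∧ Squarefree d ∧ ∃ x w y : ℚ, Point h P d x w y}.ncard : ℝ) ≤
            C * X * (Real.log X) ^ (-δ))) ∧
    (∃ δ : ℝ, 0 < δ ∧ ∃ C : ℝ, ∀ X : ℕ, 3 ≤ X →
      ({d : ℤ | d.natAbs ≤ X ∧ Squarefree d ∧ ∃ n : ℕ, (6 ∣ n ∨ 8 ∣ n) ∧
        ∃ x y : ℚ, y ≠ 0 ∧ (d : ℚ) * y ^ 2 = x ^ n - 1}.ncard : ℝ) ≤
        C * X * (Real.log X) ^ (-δ)) := by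
  classical
  refine ⟨fun K _ _ h P L H => ?_, Pool.Agent.NH93.QT.few_cyc⟩
  have H' : Pool.Agent.NH93.QT.HypC h P L :=
    ⟨H.even, H.pos, H.irreducible, H.different, H.linear, H.other, H.pair⟩
  exact ⟨Pool.Agent.NH93.QT.compM h P L H', Pool.Agent.NH93.QT.compM2 h P L H'⟩

end Pool.Agent.Results.MP_10e784_ag.CompositeTwists
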