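import Pool.Agent.NH93.QT.S2
import Pool.Agent.NH93.QT.S6

/-!
# MP_10e784_ag: rational points of the twisted Fermat curves `x^n + d z^n = y^n`, `4 ∣ n` or `6 ∣ n`

For all but `O(X (log X)^(-δ))` of the squarefree `d`, `|d| ≤ X`, and for all integers `d` outside a
set of density zero, none of the affine curves `y^(ma) = x^(mb) + d` (`m = 4` or `6`, `a, b ≥ 1`)
has a rational point, and the only rational points of the projective curves `x^n + d z^n = y^n`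
(`n ≥ 4` divisible by `4` or by `6`; smooth of genus `(n - 1)(n - 2)/2`) are the two points with
`z = 0`.
-/

set_option autoImplicit false

namespace Pool.Agent.Results.MP_10e784_ag.FermatTwists

open Finset Filter Topology Pool.Agent.NH93.QT

/-- none of the affine curves `y^(ma) = x^(mb) + d`, `m = 4` or `6`, has a rational point -/
def NoPoint (d : ℤ) : Prop :=
  ∀ m : ℕ, m = 4 ∨ m = 6 → ∀ a b : ℕ, 0 < a → 0 < b → ∀ x y : ℚ, y ^ (m * a) ≠ x ^ (m * b) + d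

/-- all rational points of the projective curves `x^n + d z^n = y^n`, `4 ∣ n` or `6 ∣ n`, have
`z = 0` -/
def OnlyTrivial (d : ℤ) : Prop :=
  ∀ n : ℕ, 0 < n → 4 ∣ n ∨ 6 ∣ n → ∀ x y z : ℚ, x ^ n + d * z ^ n = y ^ n → z = 0

/-- the `d` for which `y⁴ = x⁴ + d` or `y⁶ = x⁶ + d` has a rational point -/
def Bad : Set ℤ := {d | ∃ m : ℕ, (m = 4 ∨ m = 6) ∧ ∃ x y : ℚ, y ^ m = x ^ m + d}

lemma bad_of {d : ℤ} (h : ¬ (NoPoint d ∧ OnlyTrivial d)) : d ∈ Bad := by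
  by_contra hd
  apply h
  have key : ∀ m : ℕ, m = 4 ∨ m = 6 → ∀ x y : ℚ, y ^ m ≠ x ^ m + d :=
    fun m hm x y hxy => hd ⟨m, hm, x, y, hxy⟩
  refine ⟨?_, ?_⟩
  · intro m hm a b _ _ x y hxy
    refine key m hm (x ^ b) (y ^ a) ?_
    rw [← pow_mul, ← pow_mul, mul_comm a m, mul_comm b m]
    exact hxy
  · intro n hn hdvd x y z hxyz
    by_contra hz
    have hzn : z ^ n ≠ 0 := pow_ne_zero n hz
    have main : ∀ m : ℕ, m = 4 ∨ m = 6 → m ∣ n → False := by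
      rintro m hm ⟨k, hk⟩
      refine key m hm ((x / z) ^ k) ((y / z) ^ k) ?_
      rw [← pow_mul, ← pow_mul, mul_comm k m, ← hk, div_pow, div_pow]
      field_simp
      linear_combination -hxyz
    rcases hdvd with h4 | h6
    · exact main 4 (Or.inl rfl) h4
    · exact main 6 (Or.inr rfl) h6

lemma few_bad (m : ℕ) (hm : 0 < m) : Few {d : ℤ | Squarefree d ∧ d * (m : ℤ) ^ 2 ∈ Bad} := by
  set A1 : Set ℤ := {d | Squarefree d ∧ ∃ t r y : ℤ, IsCoprime t r ∧ y ≠ 0 ∧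
    d * y ^ 2 = t ^ 4 - r ^ 4 ∧ ¬ IsSquare (2 * (t ^ 2 + r ^ 2))} with hA1
  set A2 : ℕ → Set ℤ := fun k => {d | Squarefree d ∧ ∃ a b w y : ℤ, IsCoprime a b ∧
    y ≠ 0 ∧ a ^ 2 + b ^ 2 = k * w ^ 2 ∧ d * y ^ 2 = a * b * (a - b) * (a + b)} with hA2
  set A3 : Set ℤ := {d | Squarefree d ∧ ∃ a b w y : ℤ, IsCoprime a b ∧ y ≠ 0 ∧
    a ^ 2 + b ^ 2 = w ^ 2 ∧ d * y ^ 2 = a * b * (a - b) * (a + b) ∧
    ¬ (IsSquare (b * (b - a)) ∧ IsSquare (b * (b + a))) ∧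
    ¬ (IsSquare (a * (a - b)) ∧ IsSquare (a * (a + b)))} with hA3
  have h1 : Few A1 := step1
  have h3 : Few A3 := step3
  have h2 : Few (⋃ k ∈ m.divisors.filter (fun k : ℕ => Odd (k : ℤ) ∧ ¬ IsSquare (k : ℤ)), A2 k) :=
    few_biUnion _ _ fun k hk => step2 (mem_filter.1 hk).2.1 (mem_filter.1 hk).2.2
  refine (((h1.union h3).union h2).union step6).mono ?_
  rintro d ⟨hd, n, hn, x, y, hxy⟩
  have hm0 : (m : ℤ) ≠ 0 := by exact_mod_cast hm.ne'
  have h4 : y ^ n = x ^ n + (d : ℚ) * ((m : ℤ) : ℚ) ^ 2 := by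
    rw [hxy]
    push_cast
    ring
  rcases hn with rfl | rfl
  · left
    rcases three hd hm0 h4 with h | ⟨k, hk, h5, h6, h7⟩ | h
    · exact Or.inl (Or.inl ⟨hd, h⟩)
    · right
      rw [Set.mem_iUnion₂]
      rw [Int.natAbs_natCast] at hk
      exact ⟨k, mem_filter.2 ⟨hk, h5, h6⟩, hd, h7⟩
    · exact Or.inl (Or.inr ⟨hd, h⟩)
  · right
    exact ⟨hd, point6 hd hm0 h4⟩

theorem result :
    (∃ δ : ℝ, 0 < δ ∧ ∃ C : ℝ, ∀ X : ℕ, 3 ≤ X →
      ({d : ℤ | d.natAbs ≤ X ∧ Squarefree d ∧ ¬ (NoPoint d ∧ OnlyTrivial d)}.ncard : ℝ) ≤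
        C * X * (Real.log X) ^ (-δ)) ∧
    Tendsto (fun X : ℕ => ({d : ℤ | d.natAbs ≤ X ∧ ¬ (NoPoint d ∧ OnlyTrivial d)}.ncard : ℝ) / X)
      atTop (𝓝 0) := by
  refine ⟨?_, ?_⟩
  · have h := (few_bad 1 one_pos).mono (S := {d | Squarefree d ∧ ¬ (NoPoint d ∧ OnlyTrivial d)})
      (fun d hd => ⟨hd.1, by
        have h1 := bad_of hd.2
        rw [Nat.cast_one, one_pow, mul_one]
        exact h1⟩)
    exact h
  · have h := dens_zero (S := Bad) few_bad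
    refine squeeze_zero (fun X => by positivity) (fun X => ?_) h
    refine div_le_div_of_nonneg_right ?_ (Nat.cast_nonneg _)
    refine Nat.cast_le.2 (Set.ncard_le_ncard ?_ (fin_few X _))
    rintro d ⟨h1, h2⟩
    exact ⟨h1, bad_of h2⟩

end Pool.Agent.Results.MP_10e784_ag.FermatTwists
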