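import Mathlib
import Pool.Agent.NH8.UH

/-!
# Rational points on the Kummer coverings F(x^m, y^n) = 0 of all plane curves of bounded degree

Let `F` be an irreducible polynomial in two variables over `ℚ` of degree at most `D` with at least
three terms (so `F = 0` is not a translate of a one-dimensional subtorus).  We consider the curves
`C : F(x ^ m, y ^ n) = 0`, i.e. the coverings of the curve `F = 0` given by an `m`-th root and an
`n`-th root of the coordinates.  Their genus tends to infinity with `gcd m n`.  Let `P₀ = (x₀, y₀)`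
be a rational point of `C` with `x₀ y₀ ≠ 0`.  Scaling of the coordinates turns `(C, P₀)` into the curve
`F(x₀ ^ m x ^ m, y₀ ^ n y ^ n) = 0` with the base point `(1, 1)`; so the class of `(C, P₀)` is
`(m, n, I)`, where `I` is the ideal generated by `F(x₀ ^ m X, y₀ ^ n Y)`.

For all `D` and `ε > 0` there are `g₀` and `δ > 0` such that for all `Y ≥ 1` there are at most `Y ^ ε`
classes with `gcd m n ≥ g₀` and `m, n ≤ Y ^ δ` for which `C` has more than
`bound D = 4 * 2 ^ ((D + 1) * (D + 2) / 2) * D ^ 2` rational points `(x, y)` with `x y ≠ 0` such that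
the quotients `x / x₀` and `y / y₀` have height at most `Y`.  Neither `D` bounds the genus nor are the
coefficients of `F` bounded.

Method: the minors of the matrix of the monomials of degree at most `D` at the points vanish.  If
there are more classes than claimed, then by the determinant method in an ultraproduct there are two
of them such that all these relations are graded by the logarithms of the quotients of the
monomials at the points of the two curves.  So there is a deformation of the points of the first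
curve along one-parameter subgroups, with a fixed base point, which stay on a moving curve of degree
at most `D`, over the field of generalised power series.  Its leading terms and the theorem of Bezout
show that many of the points do not move.  Therefore the two curves are equal.
-/

set_option autoImplicit false

namespace Pool.Agent.Results.MP_10e784_ag.KummerCoverings

open MvPolynomial

/-- the height of `q` is at most `B` -/
def HeightLE (B : ℕ) (q : ℚ) : Prop := |q.num| ≤ (B : ℤ) ∧ q.den ≤ B

/-- the rational points with nonzero coordinates of the curve `F(x ^ m, y ^ n) = 0` -/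
def points (m n : ℕ) (F : MvPolynomial (Fin 2) ℚ) : Set (ℚ × ℚ) :=
  {P | P.1 ≠ 0 ∧ P.2 ≠ 0 ∧ eval ![P.1 ^ m, P.2 ^ n] F = 0}

/-- the quotients of the coordinates of `P` by those of `P₀` have height at most `Y` -/
def Near (Y : ℕ) (P₀ P : ℚ × ℚ) : Prop := HeightLE Y (P.1 / P₀.1) ∧ HeightLE Y (P.2 / P₀.2)

/-- the polynomial `F(x₀ ^ m X, y₀ ^ n Y)`, where `P₀ = (x₀, y₀)` -/
noncomputable def translate (m n : ℕ) (P₀ : ℚ × ℚ) (F : MvPolynomial (Fin 2) ℚ) :
    MvPolynomial (Fin 2) ℚ :=
  aeval ![C (P₀.1 ^ m) * X 0, C (P₀.2 ^ n) * X 1] F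

/-- the bound for the number of points -/
def bound (D : ℕ) : ℕ := 4 * (2 ^ ((D + 1) * (D + 2) / 2) * D ^ 2)

/-- the classes `(m, n, I)` with `g₀ ≤ gcd m n`, `1 ≤ m, n ≤ Y ^ δ`, of the curves
`F(x ^ m, y ^ n) = 0`, `F` irreducible of degree at most `D` with at least three terms, with a base
point `P₀` and more than `bound D` rational points with nonzero coordinates near `P₀`, where `I` is the
ideal generated by `F(x₀ ^ m X, y₀ ^ n Y)` -/
def exceptional (D g₀ : ℕ) (δ : ℝ) (Y : ℕ) : Set (ℕ × ℕ × Ideal (MvPolynomial (Fin 2) ℚ)) :=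
  {t | g₀ ≤ Nat.gcd t.1 t.2.1 ∧ 1 ≤ t.1 ∧ 1 ≤ t.2.1 ∧ (t.1 : ℝ) ≤ (Y : ℝ) ^ δ ∧
    (t.2.1 : ℝ) ≤ (Y : ℝ) ^ δ ∧ ∃ F : MvPolynomial (Fin 2) ℚ, Irreducible F ∧ F.totalDegree ≤ D ∧
      3 ≤ F.support.card ∧ ∃ P₀ ∈ points t.1 t.2.1 F,
        Ideal.span {translate t.1 t.2.1 P₀ F} = t.2.2 ∧
        (bound D : ℕ∞) < {P | P ∈ points t.1 t.2.1 F ∧ Near Y P₀ P}.encard}

/-- For all `D` and `ε > 0` there are `g₀` and `δ > 0` such that for all `Y ≥ 1` there are at most
`Y ^ ε` classes `(m, n, I)` with `gcd m n ≥ g₀` and `1 ≤ m, n ≤ Y ^ δ` of curves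
`F(x ^ m, y ^ n) = 0`, `deg F ≤ D`, with a base point and more than `bound D` rational points with
nonzero coordinates near the base point. -/
theorem result (D : ℕ) (ε : ℝ) (hε : 0 < ε) : ∃ (g₀ : ℕ) (δ : ℝ), 0 < δ ∧ ∀ Y : ℕ, 1 ≤ Y →
    (exceptional D g₀ δ Y).Finite ∧ ((exceptional D g₀ δ Y).ncard : ℝ) ≤ (Y : ℝ) ^ ε := by
  obtain ⟨g₀, δ, hδ, H⟩ := Pool.Agent.NH8.UG.few_classes D ε hε
  refine ⟨g₀, δ, hδ, fun Y hY => ?_⟩
  refine Pool.Agent.Y902.GN.fin_of_bound _ _ fun T hT => ?_
  refine H Y hY T fun t ht => ?_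
  obtain ⟨h1, h2, h3, h4, h5, F, hF1, hF2, hF3, P₀, hP₀, hI, hb⟩ := hT t ht
  exact ⟨h1, h2, h3, h4, h5, F, hF1, hF2, hF3, P₀, hP₀, hI, hb⟩

end Pool.Agent.Results.MP_10e784_ag.KummerCoverings
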