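import Mathlib
import Pool.Agent.NH8.VG
import Pool.Agent.NH8.WF

/-!
# Superelliptic curves and cyclic coverings with many rational points are rare

Consider all superelliptic curves `y ^ n = F (x)` where `F` is a rational polynomial of degree at
most `D`, and more generally all cyclic coverings `G (x, y ^ n) = 0` of plane curves
`G (x, z) = 0` of degree at most `D`. The coefficients are arbitrary. For all `D` and `ε > 0`:

* **Few classes.** There are `B`, `R` and `δ > 0` such that for every `Y ≥ 1` the superelliptic
  curves with `1 ≤ deg F` and `R ≤ n ≤ Y ^ δ` which have more than `B` rational points of height at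
  most `Y` belong to at most `Y ^ ε` isomorphism classes, where the isomorphisms are the maps
  `(x, y) ↦ (a x + b, c y)`.
* **Few ratios.** There are `R` and `δ > 0` such that for every `Y ≥ 1` there is a set `E` of at most
  `Y ^ ε` rational numbers with the following properties for all `n` with `R ≤ n ≤ Y ^ δ`: if a
  superelliptic curve has two rational points of height at most `Y` with `y ≠ 0` for which the
  absolute value of the quotient of the second coordinates is not in `E`, then it has at most `4 D`
  rational points of height at most `Y` with `y ≠ 0`; if a cyclic covering with `G` irreducible and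
  not a polynomial in the first variable has two such points, then it has at most
  `D ^ 2 (D + 1) ^ 2` rational points of height at most `Y` with `y ≠ 0`. The set `E` does not depend
  on `F`, `G` and `n`.

Idea of the proof. The points of such a curve satisfy linear relations between the monomials
`x ^ i y ^ (n j)`; by the results of `Y902.GN` on equations between high powers with small
coefficients all but few configurations of points come with a second configuration such that
multiplying the numbers `y ^ n` by powers of a variable whose exponents are the logarithms of the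
quotients of the second coordinates gives again points of a curve of the same degree, now over a
field of generalised power series. Leading terms show that such a deformation is a scaling, so that
the quotients of the second coordinates agree for the two configurations. This gives few ratios.

For the first statement it remains to consider polynomials `F` with `F (x_j) = c ^ n v_j` for a
common vector `v`. Interpolation turns the conditions on `v` into linear equations with small
coefficients which do not depend on `n`. Hence there are small integers `μ_j` and for each `F` a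
polynomial `Q` of degree at most `D` with small coefficients and `Q (x_j) = μ_j`. The polynomials
`Q` take many values in a small set and by the theorem `small_values` (`R323.SE`) they belong to few
affine classes. Each class of polynomials `Q` belongs to boundedly many classes of polynomials `F`.
-/

set_option autoImplicit false

namespace Pool.Agent.Results.MP_10e784_ag.SuperellipticFewClasses

/-- the height of the rational number `q` is at most `Y` -/
def HeightLe (Y : ℕ) (q : ℚ) : Prop := |q.num| ≤ (Y : ℤ) ∧ q.den ≤ Y

/-- the rational points of height at most `Y` of the superelliptic curve `y ^ n = F (x)` -/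
def points (n Y : ℕ) (F : Polynomial ℚ) : Set (ℚ × ℚ) :=
  {P | HeightLe Y P.1 ∧ HeightLe Y P.2 ∧ P.2 ^ n = F.eval P.1}

/-- the superelliptic curves `y ^ n = F (x)` and `y ^ n = G (x)` are isomorphic: there is a bijective
map `(x, y) ↦ (a x + b, y / c)` from the second one to the first one -/
def Iso (n : ℕ) (F G : Polynomial ℚ) : Prop :=
  ∃ a b c : ℚ, a ≠ 0 ∧ c ≠ 0 ∧
    G = Polynomial.C (c ^ n) * F.comp (Polynomial.C a * Polynomial.X + Polynomial.C b)

/-- the rational points of height at most `Y` with nonzero second coordinate of the superelliptic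
curve `y ^ n = F (x)` -/
def superelliptic (n Y : ℕ) (F : Polynomial ℚ) : Set (ℚ × ℚ) :=
  {P | P.2 ≠ 0 ∧ HeightLe Y P.1 ∧ HeightLe Y P.2 ∧ P.2 ^ n = F.eval P.1}

/-- the rational points of height at most `Y` with nonzero second coordinate of the cyclic covering
`G (x, y ^ n) = 0` of the plane curve `G (x, z) = 0` -/
def cover (n Y : ℕ) (G : MvPolynomial (Fin 2) ℚ) : Set (ℚ × ℚ) :=
  {P | P.2 ≠ 0 ∧ HeightLe Y P.1 ∧ HeightLe Y P.2 ∧ MvPolynomial.eval ![P.1, P.2 ^ n] G = 0}

theorem result (D : ℕ) (ε : ℝ) (hε : 0 < ε) :
    (∃ (B R : ℕ) (δ : ℝ), 0 < δ ∧ ∀ Y : ℕ, 1 ≤ Y → ∀ S : Finset (ℕ × Polynomial ℚ),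
      (∀ p ∈ S, R ≤ p.1 ∧ (p.1 : ℝ) ≤ (Y : ℝ) ^ δ ∧ 1 ≤ p.2.natDegree ∧ p.2.natDegree ≤ D ∧
        (B : ℕ∞) < (points p.1 Y p.2).encard) →
      (∀ p ∈ S, ∀ q ∈ S, p ≠ q → p.1 = q.1 → ¬ Iso p.1 p.2 q.2) →
      (S.card : ℝ) ≤ (Y : ℝ) ^ ε) ∧
    ∃ (R : ℕ) (δ : ℝ), 0 < δ ∧ ∀ Y : ℕ, 1 ≤ Y →
      ∃ E : Finset ℚ, (E.card : ℝ) ≤ (Y : ℝ) ^ ε ∧ ∀ n : ℕ, R ≤ n → (n : ℝ) ≤ (Y : ℝ) ^ δ →
        (∀ F : Polynomial ℚ, F.natDegree ≤ D →
          ∀ P ∈ superelliptic n Y F, ∀ Q ∈ superelliptic n Y F, |P.2 / Q.2| ∉ E →
            (superelliptic n Y F).encard ≤ ((4 * D : ℕ) : ℕ∞)) ∧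
        (∀ G : MvPolynomial (Fin 2) ℚ, Irreducible G → G.totalDegree ≤ D → 0 < G.degreeOf 1 →
          ∀ P ∈ cover n Y G, ∀ Q ∈ cover n Y G, |P.2 / Q.2| ∉ E →
            (cover n Y G).encard ≤ ((D ^ 2 * (D + 1) ^ 2 : ℕ) : ℕ∞)) :=
  ⟨Pool.Agent.NH8.WB.few_curves D ε hε, Pool.Agent.NH8.VF.main D ε hε⟩

end Pool.Agent.Results.MP_10e784_ag.SuperellipticFewClasses
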